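import Pool.Agent.Helper90.PG.FamA

/-!
# The family of truncated environments: assembly of `Helper51.GP.Fam`

`Yb δ X b = max (δ b) (min X b)`; `Xc δ C X b = Yb δ X b / (1 + C δ b)`.  From the comparison of the
time constants and of the means of the passage times for `Yb` with the norm `u` (`up`, `low`) we get
a `Fam` for `Xc`.
-/

set_option autoImplicit false

namespace Pool.Agent.Helper34.GP

open MeasureTheory ProbabilityTheory Filter Topology
open Pool.Agent.Helper79.GR Pool.Agent.Helper79.GQ Pool.Agent.Helper51.NP Pool.Agent.Helper51.GP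
open Pool.Agent.Helper90.PG

variable {Ω : Type*} [MeasurableSpace Ω] {d : ℕ} {P : Measure Ω} {ν : Measure ℝ}
  {X : Edge d → Ω → ℝ}

/-- the truncated weights -/
noncomputable def Yb (δ : ℕ → ℝ) (X : Edge d → Ω → ℝ) (b : ℕ) : Edge d → Ω → ℝ :=
  fun e ω => max (δ b) (min (X e ω) b)

/-- the lower truncation -/
noncomputable def dl (b : ℕ) : ℝ := Real.exp (-(b : ℝ) ^ 2)

theorem dl_pos (b : ℕ) : 0 < dl b := Real.exp_pos _

theorem dl_le_one (b : ℕ) : dl b ≤ 1 := by
  unfold dl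
  rw [Real.exp_le_one_iff]
  have := sq_nonneg (b : ℝ)
  linarith

theorem dl_tendsto : Tendsto dl atTop (𝓝 0) := by
  unfold dl
  refine Real.tendsto_exp_atBot.comp ?_
  refine tendsto_neg_atTop_atBot.comp ?_
  exact (tendsto_pow_atTop (two_ne_zero)).comp tendsto_natCast_atTop_atTop

theorem cost_smul (c : Edge d → ℝ) (k : ℝ) (x : V d) (w : List (St d)) :
    cost (fun e => k * c e) x w = k * cost c x w := by
  induction w generalizing x with
  | nil => simp [cost]
  | cons s w ih => simp only [cost, ih]; ring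

theorem T_smul (c : Edge d → ℝ) {k : ℝ} (hk : 0 ≤ k) (x y : V d) :
    T (fun e => k * c e) x y = k * T c x y := by
  unfold T
  rw [Real.mul_iInf_of_nonneg hk]
  exact iInf_congr fun w => cost_smul c k x w.1

theorem mm_smul (Y : Edge d → Ω → ℝ) {k : ℝ} (hk : 0 ≤ k) (v : V d) :
    mm P (fun e ω => k * Y e ω) v = k * mm P Y v := by
  unfold mm
  rw [← integral_const_mul]
  refine integral_congr_ae (Eventually.of_forall fun ω => ?_)
  exact T_smul (cf Y ω) hk 0 v

omit [MeasurableSpace Ω] in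
theorem Xc_eq (δ : ℕ → ℝ) (C : ℝ) (X : Edge d → Ω → ℝ) (b : ℕ) :
    Xc δ C X b = fun e ω => (1 / (1 + C * δ b)) * Yb δ X b e ω := by
  funext e ω
  unfold Xc Yb cl
  ring

theorem uu_smul {Y : Edge d → Ω → ℝ} {ν' : Measure ℝ} {a b : ℝ} (h : Env P Y ν' a b) {k : ℝ}
    (hk : 0 ≤ k) (x : F d) : uu P (fun e ω => k * Y e ω) x = k * uu P Y x := by
  unfold uu
  have h1 := (tendsto_tc (subM_mm h) x).const_mul k
  have h2 : Tendsto (fun n : ℕ => mm P (fun e ω => k * Y e ω) (fl n x) / n) atTop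
      (𝓝 (k * tc (mm P Y) x)) := by
    refine h1.congr fun n => ?_
    rw [mm_smul Y hk, mul_div_assoc]
  exact h2.limUnder_eq

theorem env_Yb (hP : IsProbabilityMeasure P) (hm : ∀ e, Measurable (X e)) (hi : iIndepFun X P)
    (hl : ∀ e, P.map (X e) = ν) {δ : ℕ → ℝ} (hδ : ∀ b, 0 < δ b)
    (hδ1 : ∀ b, δ b ≤ 1) (b : ℕ) (hb : 1 ≤ b) :
    Env P (Yb δ X b) (nc δ 0 ν b) (δ b) b := by
  have h1 := env_cl (C := 0) hP hm hi hl le_rfl hδ hδ1 b hb
  have h2 : Xc δ 0 X b = Yb δ X b := by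
    rw [Xc_eq]
    funext e ω
    simp
  rw [h2] at h1
  simpa using h1

/-- **the assembly** -/
theorem fam_of (hP : IsProbabilityMeasure P) (hm : ∀ e, Measurable (X e)) (hi : iIndepFun X P)
    (hl : ∀ e, P.map (X e) = ν) (hat : ∀ x, ν {x} = 0) (h0 : ν (Set.Iio 0) = 0) (hd : 1 ≤ d)
    {C : ℝ} (hC : 0 ≤ C) {u : F d → ℝ} {a₀ K₀ : ℝ} (hu : Nrm a₀ K₀ u) {m : ℕ} (hm1 : 1 ≤ m)
    (up : ∀ b, 1 ≤ b → ∀ x, uu P (Yb dl X b) x ≤ (1 + C * dl b) * u x)
    (low : ∃ K : ℝ, ∀ L b : ℕ, 1 ≤ L → L ^ m ≤ b → ∀ x : V d, n1 x ≤ Real.exp L →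
      u (rv x) ≤ mm P (Yb dl X b) x + K * b) :
    ∃ a K : ℝ, Fam P (Xc dl C X) (nc dl C ν) (fun b => dl b / (1 + C * dl b)) a m K u := by
  have hν : IsProbabilityMeasure ν := by
    have i : Fin d := ⟨0, hd⟩
    rw [← hl (ed 0 (i, true))]
    exact Measure.isProbabilityMeasure_map (hm _).aemeasurable
  obtain ⟨a₁, hreg⟩ := reg_cl hP hm hi hl hat h0 hd hC dl_pos dl_le_one
  obtain ⟨K₁, hlow⟩ := low
  have hth : ∀ b, 0 < 1 + C * dl b := fun b => by
    have := mul_nonneg hC (dl_pos b).le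
    linarith
  have hmin : 0 < min a₁ a₀ := lt_min (hreg 1 le_rfl).apos hu.apos
  have hnr : ∀ x : F d, 0 ≤ nr x := fun x => Finset.sum_nonneg fun i _ => abs_nonneg _
  refine ⟨min a₁ a₀, max K₀ (K₁ + C), ?_, ?_, ?_, ?_, ?_, ?_⟩
  · exact env_cl hP hm hi hl hC dl_pos dl_le_one
  · intro b hb
    have h1 := hreg b hb
    refine ⟨hmin, (min_le_left _ _).trans h1.ale, fun n => ?_⟩
    refine (measure_mono ?_).trans (h1.peierls n)
    rintro ω ⟨w, h2, h3, h4⟩
    exact ⟨w, h2, h3, h4.trans (mul_le_mul_of_nonneg_right (min_le_left _ _)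
      (Nat.cast_nonneg _))⟩
  · exact mass_nc hat h0 hC dl_pos dl_tendsto
  · exact ⟨hmin, hu.add, hu.smul, hu.even,
      fun x => (mul_le_mul_of_nonneg_right (min_le_right _ _) (hnr x)).trans (hu.lo x),
      fun x => (hu.hi x).trans (mul_le_mul_of_nonneg_right (le_max_left _ _) (hnr x))⟩
  · intro b hb x
    rw [Xc_eq, uu_smul (env_Yb hP hm hi hl dl_pos dl_le_one b hb) (one_div_pos.2 (hth b)).le]
    rw [one_div, inv_mul_le_iff₀ (hth b)]
    exact up b hb x
  · intro L b hL hb x hx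
    have hLb : L ≤ b := (Nat.le_self_pow (by omega) L).trans hb
    have hb1 : 1 ≤ b := hL.trans hLb
    have hbr : (1 : ℝ) ≤ b := by exact_mod_cast hb1
    have h1 := hlow L b hL hb x hx
    have hE := env_cl (C := C) hP hm hi hl hC dl_pos dl_le_one b hb1
    have h2 := (subM_mm hE).hi x
    have h3 : mm P (Xc dl C X b) x = 1 / (1 + C * dl b) * mm P (Yb dl X b) x := by
      rw [Xc_eq, mm_smul _ (one_div_pos.2 (hth b)).le]
    have h4 : mm P (Yb dl X b) x = (1 + C * dl b) * mm P (Xc dl C X b) x := by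
      rw [h3, ← mul_assoc, mul_one_div_cancel (hth b).ne', one_mul]
    have h5 : dl b * mm P (Xc dl C X b) x ≤ b := by
      calc dl b * mm P (Xc dl C X b) x ≤ dl b * (b * Real.exp L) := by
            refine mul_le_mul_of_nonneg_left (h2.trans ?_) (dl_pos b).le
            exact mul_le_mul_of_nonneg_left hx (Nat.cast_nonneg b)
        _ = b * Real.exp (-(b : ℝ) ^ 2 + L) := by
            unfold dl
            rw [Real.exp_add]
            ring
        _ ≤ b * 1 := by
            refine mul_le_mul_of_nonneg_left (Real.exp_le_one_iff.2 ?_) (Nat.cast_nonneg b)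
            have h6 : (L : ℝ) ≤ b := by exact_mod_cast hLb
            nlinarith
        _ = b := mul_one _
    have h6 : C * (dl b * mm P (Xc dl C X b) x) ≤ C * b := mul_le_mul_of_nonneg_left h5 hC
    have h7 : (K₁ + C) * b ≤ max K₀ (K₁ + C) * b :=
      mul_le_mul_of_nonneg_right (le_max_right _ _) (Nat.cast_nonneg b)
    rw [h4] at h1
    nlinarith

end Pool.Agent.Helper34.GP
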