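import Pool.Agent.Helper59.PG.Pei
import Pool.Agent.Helper51.GP.Defs

/-!
# Regularity (Peierls): long walks with different edges are not cheap

Only the mass of the law below `θ` is used.
-/

set_option autoImplicit false

namespace Pool.Agent.Helper34.GP

open MeasureTheory ProbabilityTheory Set
open Pool.Agent.Helper79.GR

variable {Ω : Type*} [MeasurableSpace Ω] {d : ℕ} {P : Measure Ω} {X : Edge d → Ω → ℝ}
  {ν : Measure ℝ} {a b : ℝ}

/-- the cost of a walk is at least `θ` times the number of its edges which are not light -/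
theorem cost_ge (c : Edge d → ℝ) (h0 : ∀ e, 0 ≤ c e) {θ : ℝ} (x : V d) (w : List (St d)) :
    θ * (w.length - ((eds x w).countP (fun e => decide (c e < θ)) : ℝ)) ≤ cost c x w := by
  induction w generalizing x with
  | nil => simp [eds, cost]
  | cons s w ih =>
    have h1 := ih (x + sv s)
    simp only [eds, cost, List.countP_cons, List.length_cons]
    by_cases h2 : c (ed x s) < θ
    · simp only [h2, decide_true, ite_true]
      push_cast
      have h3 := h0 (ed x s)
      linarith
    · simp only [h2, decide_false, Bool.false_eq_true, ite_false]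
      push_cast
      have h3 := not_lt.1 h2
      linarith

/-- **regularity** -/
theorem reg_of_light (h : Env P X ν a b) (hd : 1 ≤ d) {θ : ℝ} (hθ : 0 < θ)
    (hν : ν.real (Iio θ) ≤ (1 / (24 * d)) ^ 2) (n : ℕ) :
    P {ω | ∃ w : List (St d), n ≤ w.length ∧ (eds 0 w).Nodup ∧
      cost (cf X ω) 0 w ≤ θ / 4 * w.length} ≤ ENNReal.ofReal (Real.exp (-n)) := by
  classical
  have hPr := h.prob
  have hd0 : (0 : ℝ) < d := by exact_mod_cast hd
  rcases Nat.eq_zero_or_pos n with hn | hn
  · subst hn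
    simp only [Nat.cast_zero, neg_zero, Real.exp_zero, ENNReal.ofReal_one]
    exact prob_le_one
  set r : ℝ := 1 / (24 * d) with hr
  have hr0 : 0 < r := by positivity
  have hp0 : 0 ≤ ν.real (Iio θ) := measureReal_nonneg
  have hpr : (ν.real (Iio θ)) ^ (1 / 2 : ℝ) ≤ r := by
    rw [← Real.sqrt_eq_rpow]
    calc √(ν.real (Iio θ)) ≤ √(r ^ 2) := Real.sqrt_le_sqrt hν
      _ = r := Real.sqrt_sq hr0.le
  have hsub : {ω | ∃ w : List (St d), n ≤ w.length ∧ (eds 0 w).Nodup ∧
      cost (cf X ω) 0 w ≤ θ / 4 * w.length} ⊆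
      ⋃ m : ℕ, ⋃ f : Fin (m + n) → St d, {ω | (eds 0 (List.ofFn f)).Nodup ∧
        1 / 2 * (List.ofFn f).length <
          ((eds 0 (List.ofFn f)).countP (fun e => decide (X e ω < θ)) : ℝ)} := by
    rintro ω ⟨w, h1, h2, h3⟩
    rw [mem_iUnion]
    obtain ⟨m, hm⟩ := Nat.exists_eq_add_of_le h1
    refine ⟨m, ?_⟩
    rw [mem_iUnion]
    have hm' : w.length = m + n := by omega
    refine ⟨fun i => w.get (i.cast hm'.symm), ?_⟩
    have h4 : List.ofFn (fun i : Fin (m + n) => w.get (i.cast hm'.symm)) = w := by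
      apply List.ext_getElem
      · rw [List.length_ofFn, hm']
      · intro n h5 h6
        rw [List.getElem_ofFn]
        rfl
    rw [Set.mem_ofPred_eq, h4]
    refine ⟨h2, ?_⟩
    have h5 := cost_ge (cf X ω) (fun e => h.apos.le.trans (h.bd e ω).1) (θ := θ) 0 w
    have h6 : (0 : ℝ) < w.length := by
      have : 0 < w.length := by omega
      exact_mod_cast this
    by_contra h7
    rw [not_lt] at h7
    have h8 : ((eds 0 w).countP (fun e => decide (cf X ω e < θ)) : ℝ) ≤ 1 / 2 * w.length := h7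
    nlinarith
  refine (measure_mono hsub).trans ((measure_iUnion_le _).trans ?_)
  have hm : ∀ m : ℕ, P (⋃ f : Fin (m + n) → St d, {ω | (eds 0 (List.ofFn f)).Nodup ∧
        1 / 2 * (List.ofFn f).length <
          ((eds 0 (List.ofFn f)).countP (fun e => decide (X e ω < θ)) : ℝ)}) ≤
      ENNReal.ofReal ((1 / 6) ^ (m + n)) := by
    intro m
    refine (measure_iUnion_le _).trans ?_
    rw [tsum_fintype]
    have h1 : ∀ f : Fin (m + n) → St d, P {ω | (eds 0 (List.ofFn f)).Nodup ∧
        1 / 2 * (List.ofFn f).length <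
          ((eds 0 (List.ofFn f)).countP (fun e => decide (X e ω < θ)) : ℝ)} ≤
        2 ^ (m + n) * ENNReal.ofReal r ^ (m + n) := by
      intro f
      by_cases hf : (eds 0 (List.ofFn f)).Nodup
      · have h2 := Helper59.PG.one_walk h hd (by norm_num : (0 : ℝ) < 1 / 2) hpr (List.ofFn f) hf
        rw [List.length_ofFn] at h2
        refine (measure_mono ?_).trans h2
        rintro ω ⟨-, h3⟩
        rw [List.length_ofFn] at h3
        exact h3
      · have h2 : {ω | (eds 0 (List.ofFn f)).Nodup ∧ 1 / 2 * (List.ofFn f).length <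
            ((eds 0 (List.ofFn f)).countP (fun e => decide (X e ω < θ)) : ℝ)} = ∅ := by
          rw [eq_empty_iff_forall_notMem]
          rintro ω ⟨h3, -⟩
          exact hf h3
        rw [h2, measure_empty]
        exact zero_le
    refine (Finset.sum_le_sum fun f _ => h1 f).trans ?_
    rw [Finset.sum_const, Finset.card_univ, Fintype.card_fun, Fintype.card_fin, nsmul_eq_mul,
      Fintype.card_prod, Fintype.card_fin, Fintype.card_bool]
    have h3 : ((d * 2) ^ (m + n) : ℝ) * (2 ^ (m + n) * r ^ (m + n)) = (1 / 6) ^ (m + n) := by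
      rw [← mul_pow, ← mul_pow]
      congr 1
      rw [hr]
      field_simp
      norm_num
    have h4 : (((d * 2) ^ (m + n) : ℕ) : ENNReal) * (2 ^ (m + n) * ENNReal.ofReal r ^ (m + n)) =
        ENNReal.ofReal (((d * 2) ^ (m + n) : ℝ) * (2 ^ (m + n) * r ^ (m + n))) := by
      rw [ENNReal.ofReal_mul (by positivity), ENNReal.ofReal_mul (by positivity),
        ENNReal.ofReal_pow hr0.le, ENNReal.ofReal_pow (by norm_num : (0 : ℝ) ≤ 2),
        ENNReal.ofReal_pow (by positivity : (0 : ℝ) ≤ d * 2)]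
      congr 1
      · rw [Nat.cast_pow]
        congr 1
        rw [ENNReal.ofReal_mul hd0.le, ENNReal.ofReal_natCast]
        push_cast
        norm_num
      · norm_num
    rw [h4, h3]
  refine (ENNReal.tsum_le_tsum hm).trans ?_
  have hs : Summable fun m : ℕ => (1 / 6 : ℝ) ^ m :=
    summable_geometric_of_lt_one (by norm_num) (by norm_num)
  have h5 : ∀ m : ℕ, (1 / 6 : ℝ) ^ (m + n) = (1 / 6) ^ n * (1 / 6) ^ m := fun m => by
    rw [pow_add, mul_comm]
  simp_rw [h5]
  rw [← ENNReal.ofReal_tsum_of_nonneg (fun m => by positivity) (hs.mul_left _)]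
  refine ENNReal.ofReal_le_ofReal ?_
  rw [tsum_mul_left, tsum_geometric_of_lt_one (by norm_num) (by norm_num), Real.exp_neg,
    ← Real.exp_one_pow, ← inv_pow]
  have he : (0 : ℝ) < Real.exp 1 := Real.exp_pos 1
  have he3 : Real.exp 1 < 3 := by linarith [Real.exp_one_lt_d9]
  obtain ⟨k, rfl⟩ : ∃ k, n = k + 1 := ⟨n - 1, by omega⟩
  have h6 : (1 / 6 : ℝ) ≤ (Real.exp 1)⁻¹ := by
    rw [one_div]
    exact inv_anti₀ he (by linarith)
  have h7 : (1 / 6 : ℝ) ^ k ≤ (Real.exp 1)⁻¹ ^ k := pow_le_pow_left₀ (by norm_num) h6 k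
  have h8 : (1 / 6 : ℝ) * (1 - 1 / 6)⁻¹ ≤ (Real.exp 1)⁻¹ := by
    rw [le_inv_comm₀ (by norm_num) he]
    norm_num
    linarith
  rw [pow_succ, pow_succ, mul_assoc]
  exact mul_le_mul h7 h8 (by norm_num) (by positivity)

/-- **regularity**, in the form of `Helper51.GP.Defs` -/
theorem reg_of_env (h : Env P X ν a b) (hd : 1 ≤ d) {θ : ℝ} (hθ : 0 < θ) (hθ4 : θ ≤ 4)
    (hν : ν.real (Iio θ) ≤ (1 / (24 * d)) ^ 2) : Helper51.GP.Reg P X (θ / 4) where
  apos := by positivity
  ale := by linarith
  peierls := reg_of_light h hd hθ hν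

end Pool.Agent.Helper34.GP
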