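import Pool.Agent.Helper34.GP.Fam
import Pool.Agent.Helper95.LW.Cap
import Pool.Agent.Helper79.PB.Defs

/-!
# The time constants of the truncated environments are not much larger than that of the capped one

`uu P (Yb dl X b) x ≤ (1 + C dl b) tc (mn P τ) x`, `τ ω x y = T (sc κ (cf X ω)) x y`.
-/

set_option autoImplicit false

namespace Pool.Agent.Helper34.GP

open MeasureTheory ProbabilityTheory Filter Topology
open Pool.Agent.Helper79.GR Pool.Agent.Helper79.GQ Pool.Agent.Helper51.NP Pool.Agent.Helper51.GP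
open Pool.Agent.Helper90.PG Pool.Agent.Helper95.LW Pool.Agent.Helper2.PG

variable {Ω : Type*} [MeasurableSpace Ω] {d : ℕ} {P : Measure Ω} {ν : Measure ℝ}
  {X : Edge d → Ω → ℝ}

/-- the capped passage times -/
noncomputable def ts (κ : ℝ) (X : Edge d → Ω → ℝ) (ω : Ω) (x y : V d) : ℝ :=
  T (sc κ (cf X ω)) x y

/-- an almost minimal walk which uses every edge at most once -/
theorem exists_almost {c : Edge d → ℝ} (hc : ∀ e, 0 < c e) (x y : V d) {ε : ℝ} (hε : 0 < ε) :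
    ∃ w, pos x w = y ∧ cost c x w < T c x y + ε ∧ (eds x w).Nodup := by
  classical
  have hne : Nonempty {w : List (St d) // pos x w = y} := by
    obtain ⟨w, hw, -⟩ := exists_walk x y
    exact ⟨⟨w, hw⟩⟩
  have h1 : T c x y < T c x y + ε := by linarith
  obtain ⟨⟨w, hw⟩, hwlt⟩ := exists_lt_of_ciInf_lt h1
  obtain ⟨w', hw', hsub, hnd⟩ := exists_nodup x w
  refine ⟨w', hw'.trans hw, lt_of_le_of_lt ?_ hwlt, hnd⟩
  rw [cost_eq_sum_finset x hnd]
  refine le_trans ?_ (sum_le_cost (fun e => (hc e).le) x w)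
  refine Finset.sum_le_sum_of_subset_of_nonneg (fun e he => ?_) fun e _ _ => (hc e).le
  exact List.mem_toFinset.2 (hsub e (List.mem_toFinset.1 he))

theorem ae_pos (hl : ∀ e, P.map (X e) = ν) (hm : ∀ e, Measurable (X e))
    (hat : ∀ x, ν {x} = 0) (h0 : ν (Set.Iio 0) = 0) : ∀ᵐ ω ∂P, ∀ e, 0 < X e ω := by
  rw [ae_all_iff]
  intro e
  rw [ae_iff]
  have h1 : ν (Set.Iic 0) = 0 := by
    have : Set.Iic (0 : ℝ) = Set.Iio 0 ∪ {0} := by
      ext x
      simp [le_iff_lt_or_eq]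
    rw [this]
    exact measure_union_null h0 (hat 0)
  rw [← hl e, Measure.map_apply (hm e) measurableSet_Iic] at h1
  convert h1 using 2
  ext ω
  simp

/-- the weights for Peierls' estimate -/
noncomputable def Zk (κ : ℝ) (X : Edge d → Ω → ℝ) : Edge d → Ω → ℝ :=
  fun e ω => max 0 (min (X e ω) κ)

/-- the bad events -/
def Bd' (κ a : ℝ) (X : Edge d → Ω → ℝ) (n : ℕ) : Set Ω :=
  {ω | ∃ u : List (St d), n ≤ u.length ∧ (eds 0 u).Nodup ∧ cost (cf (Zk κ X) ω) 0 u ≤ a * u.length}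

theorem measurable_cost {Y : Edge d → Ω → ℝ} (hY : ∀ e, Measurable (Y e)) (x : V d)
    (w : List (St d)) : Measurable fun ω => cost (cf Y ω) x w := by
  induction w generalizing x with
  | nil => exact measurable_const
  | cons s w ih => exact (hY _).add (ih _)

theorem measurable_Zk (hm : ∀ e, Measurable (X e)) (κ : ℝ) (e : Edge d) :
    Measurable (Zk κ X e) := measurable_const.max ((hm e).min measurable_const)

theorem measurableSet_Bd' (hm : ∀ e, Measurable (X e)) (κ a : ℝ) (n : ℕ) :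
    MeasurableSet (Bd' κ a X n) := by
  have h1 : Bd' κ a X n = ⋃ u : {u : List (St d) // n ≤ u.length ∧ (eds 0 u).Nodup},
      {ω | cost (cf (Zk κ X) ω) 0 u.1 ≤ a * u.1.length} := by
    ext ω
    simp only [Bd', Set.mem_iUnion, Set.mem_ofPred_eq, Subtype.exists, exists_prop]
    constructor
    · rintro ⟨u, h1, h2, h3⟩
      exact ⟨u, ⟨h1, h2⟩, h3⟩
    · rintro ⟨u, ⟨h1, h2⟩, h3⟩
      exact ⟨u, h1, h2, h3⟩
  rw [h1]
  refine MeasurableSet.iUnion fun u => ?_
  exact measurableSet_le (measurable_cost (measurable_Zk hm κ) 0 u.1) measurable_const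

theorem exists_reg (hP : IsProbabilityMeasure P) (hm : ∀ e, Measurable (X e))
    (hi : iIndepFun X P) (hl : ∀ e, P.map (X e) = ν) (hat : ∀ x, ν {x} = 0)
    (h0 : ν (Set.Iio 0) = 0) (hd : 1 ≤ d) {κ : ℝ} (hκ : 0 < κ) :
    ∃ a : ℝ, 0 < a ∧ ∀ n, P (Bd' κ a X n) ≤ ENNReal.ofReal (Real.exp (-n)) := by
  have hd' : (1 : ℝ) ≤ d := by exact_mod_cast hd
  have hν : IsProbabilityMeasure ν := by
    have i : Fin d := ⟨0, hd⟩
    rw [← hl (ed 0 (i, true))]
    exact Measure.isProbabilityMeasure_map (hm _).aemeasurable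
  have hq : (0 : ℝ) < (1 / (16 * (d : ℝ))) ^ 2 := by positivity
  have hq1 : (1 / (16 * (d : ℝ))) ^ 2 < 1 := by
    have h1 : (1 / (16 * (d : ℝ))) < 1 := by
      rw [div_lt_one (by positivity)]
      linarith
    have h2 : (0 : ℝ) < 1 / (16 * (d : ℝ)) := by positivity
    nlinarith
  obtain ⟨β, hβ0, -, hβ⟩ := Helper90.JT.exists_be hat h0 hq hq1
  refine ⟨min β κ / 3, by have := lt_min hβ0 hκ; linarith, fun n => ?_⟩
  exact reg_of hP hm hi hl hd (lt_min hβ0 hκ) hβ (fun e ω => le_max_left _ _)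
    (fun e ω h => le_max_of_le_right (min_le_min h le_rfl)) n

/-- the number of bad events -/
noncomputable def Nb (κ a : ℝ) (X : Edge d → Ω → ℝ) (ω : Ω) : ENNReal :=
  ∑' n : ℕ, (Bd' κ a X n).indicator 1 ω

theorem measurable_Nb (hm : ∀ e, Measurable (X e)) (κ a : ℝ) : Measurable (Nb κ a X) :=
  Measurable.tsum fun n => measurable_one.indicator (measurableSet_Bd' hm κ a n)

theorem lintegral_Nb_lt (hm : ∀ e, Measurable (X e)) {κ a : ℝ}
    (h : ∀ n, P (Bd' κ a X n) ≤ ENNReal.ofReal (Real.exp (-n))) :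
    ∫⁻ ω, Nb κ a X ω ∂P < ⊤ := by
  unfold Nb
  rw [lintegral_tsum fun n =>
    (measurable_one.indicator (measurableSet_Bd' hm κ a n)).aemeasurable]
  have h1 : ∀ n : ℕ, ∫⁻ ω, (Bd' κ a X n).indicator 1 ω ∂P ≤
      ENNReal.ofReal (Real.exp (-1) ^ n) := by
    intro n
    rw [lintegral_indicator_one (measurableSet_Bd' hm κ a n)]
    refine (h n).trans (le_of_eq ?_)
    rw [← Real.exp_nat_mul]
    congr 2
    ring
  refine lt_of_le_of_lt (ENNReal.tsum_le_tsum h1) ?_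
  have hlt : Real.exp (-1) < 1 := by
    rw [Real.exp_lt_one_iff]
    norm_num
  rw [← ENNReal.ofReal_tsum_of_nonneg (fun n => by positivity)
    (summable_geometric_of_lt_one (Real.exp_pos _).le hlt)]
  exact ENNReal.ofReal_lt_top

theorem cost_nonneg0 {c : Edge d → ℝ} (h : ∀ e, 0 ≤ c e) (x : V d) (w : List (St d)) :
    0 ≤ cost c x w := by
  induction w generalizing x with
  | nil => exact le_rfl
  | cons s w ih => exact add_nonneg (h _) (ih _)

omit [MeasurableSpace Ω] in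
theorem length_le {κ a : ℝ} (ha : 0 < a) {ω : Ω} (hN : Nb κ a X ω ≠ ⊤) {w : List (St d)}
    (hw : (eds 0 w).Nodup) :
    (w.length : ℝ) ≤ cost (cf (Zk κ X) ω) 0 w / a + (Nb κ a X ω).toReal := by
  have hc0 : 0 ≤ cost (cf (Zk κ X) ω) 0 w := cost_nonneg0 (fun e => le_max_left _ _) 0 w
  by_cases h : cost (cf (Zk κ X) ω) 0 w ≤ a * w.length
  · have h1 : (w.length : ENNReal) ≤ Nb κ a X ω := by
      unfold Nb
      refine le_trans ?_ (ENNReal.sum_le_tsum (Finset.range w.length))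
      have h2 : ∀ n ∈ Finset.range w.length, (1 : ENNReal) ≤ (Bd' κ a X n).indicator 1 ω := by
        intro n hn
        rw [Set.indicator_of_mem]
        · exact le_rfl
        · exact ⟨w, (Finset.mem_range.1 hn).le, hw, h⟩
      refine le_trans (le_of_eq ?_) (Finset.sum_le_sum h2)
      simp
    have h2 : (w.length : ℝ) ≤ (Nb κ a X ω).toReal := by
      have h3 := ENNReal.toReal_mono hN h1
      simpa using h3
    have h3 := div_nonneg hc0 ha.le
    linarith
  · have h1 := not_le.1 h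
    have h2 : (w.length : ℝ) ≤ cost (cf (Zk κ X) ω) 0 w / a := by
      rw [le_div_iff₀ ha]
      linarith
    have h3 : 0 ≤ (Nb κ a X ω).toReal := ENNReal.toReal_nonneg
    linarith

omit [MeasurableSpace Ω] in
/-- the pointwise comparison -/
theorem T_Yb_le (hd : 2 ≤ d) {κ a : ℝ} (hκ : 0 < κ) (ha : 0 < a) {ω : Ω} (hpos : ∀ e, 0 < X e ω)
    (hfin : ∀ e, (Clu (fun f => κ < cf X ω f) e).Finite) (hN : Nb κ a X ω ≠ ⊤)
    (hCt : ∀ x, (Ct κ (cf X ω) x).Finite) {b : ℕ} (hb : 1 ≤ b) (v : V d) :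
    T (cf (Yb dl X b) ω) 0 v ≤ (1 + 1 / a * dl b) * ts κ X ω 0 v +
      (κ + κ / a + (Nb κ a X ω).toReal +
        b * ((Ct κ (cf X ω) 0).ncard + (Ct κ (cf X ω) v).ncard)) := by
  have hb' : (1 : ℝ) ≤ b := by exact_mod_cast hb
  have hδ := dl_pos b
  have hδ1 := dl_le_one b
  have hsc : ∀ e, 0 < sc κ (cf X ω) e := sc_pos hκ hpos
  obtain ⟨w, hw, hlt, hnd⟩ := exists_almost hsc 0 v hκ
  have hY0 : ∀ e, 0 < cf (Yb dl X b) ω e := fun e => lt_max_of_lt_left hδ
  have hYb : ∀ e, cf (Yb dl X b) ω e ≤ b := fun e => max_le (hδ1.trans hb') (min_le_right _ _)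
  have hYc : ∀ e, cf (Yb dl X b) ω e ≤ cf X ω e + dl b := fun e => by
    have h1 : cf (Yb dl X b) ω e = max (dl b) (min (X e ω) b) := rfl
    have h2 : cf X ω e = X e ω := rfl
    rw [h1, h2]
    refine max_le ?_ ?_
    · have := hpos e
      linarith
    · have := min_le_left (X e ω) (b : ℝ)
      linarith
  have h1 := cost_le_capped (c := cf X ω) hd hκ hpos hfin hw hlt hnd hδ.le (fun e => (hY0 e).le) hYc
    (F := (hCt 0).toFinset) (G := (hCt v).toFinset) (by rw [Set.Finite.coe_toFinset])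
    (by rw [Set.Finite.coe_toFinset])
  have h2 : ∀ z : V d, ∑ e ∈ (hCt z).toFinset, cf (Yb dl X b) ω e ≤
      b * (Ct κ (cf X ω) z).ncard := by
    intro z
    have h3 : ∑ e ∈ (hCt z).toFinset, cf (Yb dl X b) ω e ≤ ∑ e ∈ (hCt z).toFinset, (b : ℝ) :=
      Finset.sum_le_sum fun e _ => hYb e
    rw [Finset.sum_const, nsmul_eq_mul, ← Set.ncard_eq_toFinset_card _ (hCt z), mul_comm] at h3
    exact h3
  have h3 := length_le ha hN hnd
  have h4 : cost (cf (Zk κ X) ω) 0 w ≤ cost (sc κ (cf X ω)) 0 w := by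
    refine Helper41.JT.cost_mono (fun e => ?_) 0 w
    exact max_le (hsc e).le (min_le_sc (c := cf X ω) hκ e)
  have h5 : T (cf (Yb dl X b) ω) 0 v ≤ cost (cf (Yb dl X b) ω) 0 w :=
    Helper41.JT.T_le_cost' hY0 hw
  have h6 := h2 0
  have h7 := h2 v
  have h8 : ts κ X ω 0 v = T (sc κ (cf X ω)) 0 v := rfl
  rw [← h8] at hlt
  have h9 : cost (cf (Zk κ X) ω) 0 w / a ≤ (ts κ X ω 0 v + κ) / a :=
    div_le_div_of_nonneg_right (h4.trans hlt.le) ha.le
  have h10 : (w.length : ℝ) ≤ ts κ X ω 0 v / a + κ / a + (Nb κ a X ω).toReal := by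
    rw [add_div] at h9
    linarith
  have h11 : dl b * w.length ≤ dl b * (ts κ X ω 0 v / a) + (κ / a + (Nb κ a X ω).toReal) := by
    have h12 : 0 ≤ κ / a + (Nb κ a X ω).toReal :=
      add_nonneg (div_pos hκ ha).le ENNReal.toReal_nonneg
    have h13 := mul_le_mul_of_nonneg_left h10 hδ.le
    have h14 : dl b * (κ / a + (Nb κ a X ω).toReal) ≤ κ / a + (Nb κ a X ω).toReal :=
      mul_le_of_le_one_left h12 hδ1
    linarith
  have h12 : (1 + 1 / a * dl b) * ts κ X ω 0 v = ts κ X ω 0 v + dl b * (ts κ X ω 0 v / a) := by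
    ring
  rw [h12]
  linarith

/-- **the upper bound** -/
theorem up_of (hP : IsProbabilityMeasure P) (hm : ∀ e, Measurable (X e)) (hi : iIndepFun X P)
    (hl : ∀ e, P.map (X e) = ν) (hat : ∀ x, ν {x} = 0) (h0 : ν (Set.Iio 0) = 0) (hd : 2 ≤ d)
    {κ : ℝ} (hκ : 0 < κ) (hfin : ∀ᵐ ω ∂P, ∀ e, (Clu (fun f => κ < cf X ω f) e).Finite)
    {N : V d → Ω → ℝ} {K₂ : ℝ} (hNi : ∀ x, Integrable (N x) P) (hNK : ∀ x, ∫ ω, N x ω ∂P ≤ K₂)
    (hCt : ∀ᵐ ω ∂P, ∀ x, (Ct κ (cf X ω) x).Finite ∧ ((Ct κ (cf X ω) x).ncard : ℝ) ≤ N x ω)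
    {a₀ b₀ : ℝ} (hint : ∀ v, Integrable (fun ω => ts κ X ω 0 v) P)
    (hsub : SubM a₀ b₀ (Helper79.PB.mn P (ts κ X))) :
    ∃ C : ℝ, 0 ≤ C ∧ ∀ b, 1 ≤ b → ∀ x,
      uu P (Yb dl X b) x ≤ (1 + C * dl b) * tc (Helper79.PB.mn P (ts κ X)) x := by
  obtain ⟨a, ha, hreg⟩ := exists_reg hP hm hi hl hat h0 (by omega : 1 ≤ d) hκ
  have hNb := lintegral_Nb_lt hm hreg
  have hNi' : Integrable (fun ω => (Nb κ a X ω).toReal) P :=
    integrable_toReal_of_lintegral_ne_top (measurable_Nb hm κ a).aemeasurable hNb.ne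
  have hfinN : ∀ᵐ ω ∂P, Nb κ a X ω < ⊤ := ae_lt_top (measurable_Nb hm κ a) hNb.ne
  refine ⟨1 / a, (one_div_pos.2 ha).le, fun b hb x => ?_⟩
  have hE := env_Yb hP hm hi hl dl_pos dl_le_one b hb
  set M : ℝ := κ + κ / a + ∫ ω, (Nb κ a X ω).toReal ∂P + b * (K₂ + K₂) with hM
  have hb0 : (0 : ℝ) ≤ b := Nat.cast_nonneg b
  -- the comparison of the means
  have hmean : ∀ v : V d, mm P (Yb dl X b) v ≤
      (1 + 1 / a * dl b) * Helper79.PB.mn P (ts κ X) v + M := by
    intro v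
    have hi2 : Integrable (fun ω => (1 + 1 / a * dl b) * ts κ X ω 0 v +
        (κ + κ / a + (Nb κ a X ω).toReal + b * (N 0 ω + N v ω))) P :=
      ((hint v).const_mul _).add
        ((((integrable_const _).add hNi')).add (((hNi 0).add (hNi v)).const_mul _))
    have h1 : mm P (Yb dl X b) v ≤ ∫ ω, ((1 + 1 / a * dl b) * ts κ X ω 0 v +
        (κ + κ / a + (Nb κ a X ω).toReal + b * (N 0 ω + N v ω))) ∂P := by
      refine integral_mono_ae (integrable_T hE 0 v) hi2 ?_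
      filter_upwards [hfin, hCt, hfinN, ae_pos hl hm hat h0] with ω h1 h2 h3 h4
      have h5 := T_Yb_le hd hκ ha h4 h1 h3.ne (fun x => (h2 x).1) hb v
      have h6 := (h2 0).2
      have h7 := (h2 v).2
      have h8 : (b : ℝ) * ((Ct κ (cf X ω) 0).ncard + (Ct κ (cf X ω) v).ncard) ≤
          b * (N 0 ω + N v ω) := mul_le_mul_of_nonneg_left (add_le_add h6 h7) hb0
      linarith
    refine h1.trans ?_
    have e1 : ∫ ω, ((1 + 1 / a * dl b) * ts κ X ω 0 v +
        (κ + κ / a + (Nb κ a X ω).toReal + b * (N 0 ω + N v ω))) ∂P =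
        (1 + 1 / a * dl b) * ∫ ω, ts κ X ω 0 v ∂P + ((∫ _ω : Ω, (κ + κ / a) ∂P) +
          ∫ ω, (Nb κ a X ω).toReal ∂P + b * (∫ ω, N 0 ω ∂P + ∫ ω, N v ω ∂P)) := by
      have i1 : Integrable (fun ω => (1 + 1 / a * dl b) * ts κ X ω 0 v) P := (hint v).const_mul _
      have i2 : Integrable (fun ω => (b : ℝ) * (N 0 ω + N v ω)) P :=
        ((hNi 0).add (hNi v)).const_mul _
      have i3 : Integrable (fun _ : Ω => κ + κ / a) P := integrable_const _
      have i4 : Integrable (fun ω => κ + κ / a + (Nb κ a X ω).toReal) P := i3.add hNi'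
      have i5 : Integrable (fun ω => κ + κ / a + (Nb κ a X ω).toReal + b * (N 0 ω + N v ω)) P :=
        i4.add i2
      rw [integral_add i1 i5, integral_add i4 i2, integral_add i3 hNi', integral_const_mul,
        integral_const_mul, integral_add (hNi 0) (hNi v)]
    rw [e1]
    have h2 : (b : ℝ) * (∫ ω, N 0 ω ∂P + ∫ ω, N v ω ∂P) ≤ b * (K₂ + K₂) :=
      mul_le_mul_of_nonneg_left (add_le_add (hNK 0) (hNK v)) hb0
    have h3 : ∫ _ω : Ω, (κ + κ / a) ∂P = κ + κ / a := by simp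
    rw [h3, hM]
    have h4 : Helper79.PB.mn P (ts κ X) v = ∫ ω, ts κ X ω 0 v ∂P := rfl
    rw [h4]
    linarith
  have h1 := tendsto_tc (subM_mm hE) x
  have h2 := ((tendsto_tc hsub x).const_mul (1 + 1 / a * dl b)).add
    (tendsto_const_div_atTop_nhds_zero_nat M)
  rw [add_zero] at h2
  refine le_of_tendsto_of_tendsto h1 h2 ?_
  filter_upwards [eventually_gt_atTop 0] with n hn
  have hn' : (0 : ℝ) < n := by exact_mod_cast hn
  have h3 := hmean (fl n x)
  rw [← mul_div_assoc, ← add_div]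
  exact div_le_div_of_nonneg_right h3 hn'.le

end Pool.Agent.Helper34.GP
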